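import Mathlib

namespace Pool.Agent.Results.MP_bcfe2b_lc.TwoAlephOne
open Filter Set Topology Cardinal

/-- the space of nonprincipal ultrafilters on `ℕ`, a subspace of the Stone space `Ultrafilter ℕ` -/
abbrev Nstar : Type := {p : Ultrafilter ℕ // (p : Filter ℕ) ≤ cofinite}

/-- almost disjoint family on a space: non-compact regular open sets with compact intersections -/
def ADFamily {X : Type} [TopologicalSpace X] (A : Set (Set X)) : Prop :=
  (∀ U ∈ A, U = interior (closure U) ∧ ¬ IsCompact U) ∧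
    ∀ U ∈ A, ∀ V ∈ A, U ≠ V → IsCompact (U ∩ V)

abbrev W : Type := (aleph 1).ord.ToType

theorem countable_Iio (α : W) : (Iio α).Countable := by
  rw [← le_aleph0_iff_set_countable, ← Order.lt_succ_iff, succ_aleph0]
  exact mk_Iio_toType_ord_lt α

theorem exists_gt (δ : W) : ∃ α, δ < α := by
  by_contra h
  push Not at h
  have h1 : (univ : Set W) ⊆ insert δ (Iio δ) := fun a _ => by
    rw [Iio_insert]; exact h a
  have h2 : (univ : Set W).Countable := ((countable_Iio δ).insert δ).mono h1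
  rw [← le_aleph0_iff_set_countable, mk_univ, mk_ord_toType] at h2
  exact absurd h2 (not_le.2 aleph0_lt_aleph_one)

theorem exists_coherent : ∃ e : W → W → ℕ, (∀ α n, {ξ | ξ < α ∧ e α ξ ≤ n}.Finite) ∧
    ∀ α β, β < α → {ξ | ξ < β ∧ e α ξ ≠ e β ξ}.Finite := by
  classical
  have : Nonempty W := by
    rw [← mk_ne_zero_iff, mk_ord_toType]; exact (aleph_pos 1).ne'
  choose g hg using fun α : W => countable_iff_exists_subset_range.1 (countable_Iio α)
  have hk : ∀ α ξ, ξ < α → ∃ k, ξ ≤ g α k ∧ g α k < α := fun α ξ h => by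
    obtain ⟨k, hk⟩ := hg α h
    exact ⟨k, hk.ge, hk ▸ h⟩
  let k : W → W → ℕ := fun α ξ => if h : ξ < α then Nat.find (hk α ξ h) else 0
  have k1 : ∀ α ξ, ξ < α → ξ ≤ g α (k α ξ) ∧ g α (k α ξ) < α := fun α ξ h => by
    simp only [k, dif_pos h]; exact Nat.find_spec (hk α ξ h)
  have k2 : ∀ α ξ K, ξ ≤ g α K → g α K < α → k α ξ ≤ K := fun α ξ K h h' => by
    simp only [k, dif_pos (h.trans_lt h')]; exact Nat.find_min' _ ⟨h, h'⟩
  let e : W → W → ℕ := (wellFounded_lt (α := W)).fix fun α ih ξ =>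
    if h : g α (k α ξ) < α then max (k α ξ) (ih _ h ξ) else 0
  have he : ∀ α ξ, ξ < α → e α ξ = max (k α ξ) (e (g α (k α ξ)) ξ) := fun α ξ h => by
    simp only [e]
    rw [WellFounded.fix_eq]
    exact dif_pos (k1 α ξ h).2
  have main : ∀ α, (∀ n, {ξ | ξ < α ∧ e α ξ ≤ n}.Finite) ∧
      ∀ β, β < α → {ξ | ξ < β ∧ e α ξ ≠ e β ξ}.Finite := by
    intro α
    induction α using WellFoundedLT.induction with
    | ind α ih =>
    have coh : ∀ β γ, β < α → γ < α → {ξ | ξ < β ∧ ξ < γ ∧ e γ ξ ≠ e β ξ}.Finite := by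
      intro β γ hβ hγ
      rcases lt_trichotomy β γ with h | rfl | h
      · exact ((ih γ hγ).2 β h).subset fun ξ hξ => ⟨hξ.1, hξ.2.2⟩
      · simp
      · exact ((ih β hβ).2 γ h).subset fun ξ hξ => ⟨hξ.2.1, hξ.2.2.symm⟩
    constructor
    · intro n
      refine (((finite_le_nat n).subset (t := {j | j ≤ n ∧ g α j < α}) fun _ h => h.1).biUnion'
        fun j hj => ((ih _ hj.2).1 n).insert (g α j)).subset fun ξ hξ => ?_
      obtain ⟨h1, h2⟩ := hξ
      rw [he α ξ h1, max_le_iff] at h2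
      refine mem_iUnion₂.2 ⟨k α ξ, ⟨h2.1, (k1 α ξ h1).2⟩, ?_⟩
      rcases (k1 α ξ h1).1.eq_or_lt with h | h
      · exact Or.inl h
      · exact Or.inr ⟨h, h2.2⟩
    · intro β hβ
      obtain ⟨K, hK⟩ := hg α hβ
      refine (((finite_le_nat K).subset (t := {j | j ≤ K ∧ g α j < α}) fun _ h => h.1).biUnion'
        fun j hj => (((ih _ hj.2).1 j).union (coh β _ hβ hj.2)).insert (g α j)).subset
        fun ξ hξ => ?_
      obtain ⟨h1, h2⟩ := hξ
      have h3 := h1.trans hβ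
      rw [he α ξ h3] at h2
      refine mem_iUnion₂.2 ⟨k α ξ, ⟨k2 α ξ K (hK ▸ h1.le) (hK ▸ hβ), (k1 α ξ h3).2⟩, ?_⟩
      rcases (k1 α ξ h3).1.eq_or_lt with h | h
      · exact Or.inl h
      · right
        rcases le_or_gt (e (g α (k α ξ)) ξ) (k α ξ) with h4 | h4
        · exact Or.inl ⟨h, h4⟩
        · exact Or.inr ⟨h1, h, by rwa [max_eq_right h4.le] at h2⟩
  exact ⟨e, fun α => (main α).1, fun α => (main α).2⟩

theorem exists_G : ∃ G : W → ℕ → Finset W, (∀ α n, ∀ ξ ∈ G α n, ξ < α) ∧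
    (∀ α ξ, ξ < α → ∀ᶠ n in atTop, ξ ∈ G α n) ∧
    ∀ α β, β ≤ α → ∀ᶠ n in atTop, G β n = (G α n).filter (· < β) := by
  obtain ⟨e, h1, h2⟩ := exists_coherent
  refine ⟨fun α n => (h1 α n).toFinset, fun α n ξ h => ((h1 α n).mem_toFinset.1 h).1,
    fun α ξ h => (eventually_ge_atTop (e α ξ)).mono fun n hn => (h1 α n).mem_toFinset.2 ⟨h, hn⟩,
    fun α β h => ?_⟩
  rcases h.eq_or_lt with rfl | h
  · exact Eventually.of_forall fun n => by ext ξ; simp +contextual
  have : ∀ᶠ n in atTop, ∀ ξ ∈ {ξ | ξ < β ∧ e α ξ ≠ e β ξ}, e α ξ ≤ n ∧ e β ξ ≤ n :=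
    (eventually_all_finite (h2 α β h)).2 fun ξ _ => (eventually_ge_atTop _).and (eventually_ge_atTop _)
  refine this.mono fun n hn => ?_
  ext ξ
  simp only [Finite.mem_toFinset, mem_ofPred_eq, Finset.mem_filter]
  by_cases hξ : ξ < β
  · by_cases h3 : e α ξ = e β ξ
    · simp [hξ, hξ.trans h, h3]
    · have := hn ξ ⟨hξ, h3⟩
      simp [hξ, hξ.trans h, this.1, this.2]
  · simp [hξ]

theorem exists_tree : ∃ y : (W → Bool) → W → Set (ℕ × List Bool), ∀ b b', b ≠ b' →
    ∃ δ, y b δ = y b' δ ∧ (∀ α α', ((y b α ∩ y b' α') \ y b δ).Finite) ∧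
      ∃ α, (y b α \ y b δ).Infinite := by
  classical
  obtain ⟨G, G1, G2, G3⟩ := exists_G
  let y : (W → Bool) → W → Set (ℕ × List Bool) := fun b α =>
    {p | ∃ γ, p.2 = ((G α p.1).filter (· < γ)).toList.map b}
  have fin : ∀ b α (S : Set (ℕ × List Bool)), S ⊆ y b α → (∀ᶠ n in atTop, ∀ p ∈ S, p.1 ≠ n) →
      S.Finite := by
    intro b α S hS h
    obtain ⟨N, hN⟩ := eventually_atTop.1 h
    refine ((finite_lt_nat N).biUnion fun n _ => ((G α n).powerset.finite_toSet.image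
      fun A => (n, A.toList.map b))).subset fun p hp => ?_
    obtain ⟨γ, hγ⟩ := hS hp
    refine mem_iUnion₂.2 ⟨p.1, not_le.1 fun h => hN _ h p hp rfl, _, ?_, Prod.ext rfl hγ.symm⟩
    exact Finset.mem_coe.2 (Finset.mem_powerset.2 (Finset.filter_subset _ _))
  refine ⟨y, fun b b' hne => ?_⟩
  obtain ⟨δ, hδ, hmin⟩ := (wellFounded_lt (α := W)).has_min {ξ | b ξ ≠ b' ξ}
    (Function.ne_iff.1 hne)
  have hlt : ∀ ξ < δ, b ξ = b' ξ := fun ξ h => by_contra fun h' => hmin ξ h' h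
  obtain ⟨δ', hδ'⟩ := exists_gt δ
  refine ⟨δ, ?_, fun α α' => ?_, δ', ?_⟩
  · ext p
    refine exists_congr fun γ => ?_
    rw [List.map_congr_left (g := b') fun ξ hξ => hlt ξ (G1 δ p.1 ξ ?_)]
    exact (Finset.mem_filter.1 (Finset.mem_toList.1 hξ)).1
  · refine fin b α _ (fun p hp => hp.1.1) ?_
    let M := max (max α α') δ'
    filter_upwards [G3 M α (by simp [M]), G3 M α' (by simp [M]),
      G3 M δ (hδ'.le.trans (le_max_right _ _)), G2 M δ (hδ'.trans_le (le_max_right _ _))]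
      with n e1 e2 e3 e4
    rintro ⟨n, w⟩ ⟨⟨⟨γ, h1⟩, ⟨γ', h2⟩⟩, h3⟩ rfl
    simp only at h1 h2 e1 e2 e3 e4
    rw [e1, Finset.filter_filter] at h1
    rw [e2, Finset.filter_filter] at h2
    simp only [← lt_min_iff] at h1 h2
    have hc : ((G M n).filter (· < min α γ)).card = ((G M n).filter (· < min α' γ')).card := by
      have := congrArg List.length (h1.symm.trans h2)
      simpa using this
    have hA : (G M n).filter (· < min α γ) = (G M n).filter (· < min α' γ') := by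
      rcases le_total (min α γ) (min α' γ') with h | h
      · exact Finset.eq_of_subset_of_card_le
          (Finset.monotone_filter_right _ fun _ _ hx => hx.trans_le h) hc.ge
      · exact (Finset.eq_of_subset_of_card_le
          (Finset.monotone_filter_right _ fun _ _ hx => hx.trans_le h) hc.le).symm
    rw [← hA, h1, List.map_inj_left] at h2
    have hle : min α γ ≤ δ := not_lt.1 fun h =>
      hδ (h2 δ (Finset.mem_toList.2 (Finset.mem_filter.2 ⟨e4, h⟩)))
    refine h3 ⟨min α γ, ?_⟩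
    simp only
    rw [h1, e3, Finset.filter_filter]
    simp only [← lt_min_iff (b := δ), min_eq_right hle]
  · intro hf
    have h1 : ∀ᶠ n in atTop, ∀ p ∈ y b δ' \ y b δ, p.1 < n :=
      (eventually_all_finite hf).2 fun p _ => eventually_gt_atTop _
    obtain ⟨n, e1, e2, e3⟩ := (h1.and ((G3 δ' δ hδ'.le).and (G2 δ' δ hδ'))).exists
    refine lt_irrefl n (e1 (n, ((G δ' n).filter (· < δ')).toList.map b) ⟨⟨δ', rfl⟩, ?_⟩)
    rintro ⟨γ, h⟩
    have hc := congrArg List.length h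
    simp only [List.length_map, Finset.length_toList] at hc
    rw [e2, Finset.filter_filter] at hc
    refine (Finset.card_lt_card ?_).ne' hc
    refine ⟨Finset.monotone_filter_right _ fun _ _ hx => hx.1.trans hδ', fun h => ?_⟩
    exact lt_irrefl δ (Finset.mem_filter.1 (h (Finset.mem_filter.2 ⟨e3, hδ'⟩))).2.1

def N (y : Set ℕ) : Set Nstar := {p | y ∈ p.1}

theorem N_open (y : Set ℕ) : IsOpen (N y) :=
  (ultrafilter_isOpen_basic y).preimage continuous_subtype_val

theorem N_closed (y : Set ℕ) : IsClosed (N y) :=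
  (ultrafilter_isClosed_basic y).preimage continuous_subtype_val

instance : CompactSpace Nstar := by
  refine (isCompact_iff_compactSpace (s := {p : Ultrafilter ℕ | (p : Filter ℕ) ≤ cofinite})).1
    (IsClosed.isCompact ?_)
  have : {p : Ultrafilter ℕ | (p : Filter ℕ) ≤ cofinite} =
      ⋂ s ∈ (cofinite : Filter ℕ), {p : Ultrafilter ℕ | s ∈ p} := by
    ext p; simp [Filter.le_def]
  exact this ▸ isClosed_biInter fun s _ => ultrafilter_isClosed_basic s

theorem not_fin {y : Set ℕ} (h : y.Finite) (p : Nstar) : y ∉ p.1 :=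
  Ultrafilter.compl_mem_iff_notMem.1 (p.2 h.compl_mem_cofinite)

theorem exists_mem {y : Set ℕ} (h : y.Infinite) : ∃ p, p ∈ N y := by
  have := cofinite_inf_principal_neBot_iff.2 h
  exact ⟨⟨Ultrafilter.of (cofinite ⊓ 𝓟 y), (Ultrafilter.of_le _).trans inf_le_left⟩,
    Ultrafilter.of_le (cofinite ⊓ 𝓟 y) (mem_inf_of_right (mem_principal_self y))⟩

theorem compact_open {U : Set Nstar} (h : IsCompact U) (ho : IsOpen U) : ∃ y, U = N y := by
  have : ∀ p ∈ U, ∃ y, p ∈ N y ∧ N y ⊆ U := by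
    intro p hp
    obtain ⟨V, hV, rfl⟩ := isOpen_induced_iff.1 ho
    obtain ⟨_, ⟨y, rfl⟩, h1, h2⟩ := ultrafilterBasis_is_basis.exists_subset_of_mem_open hp hV
    exact ⟨y, h1, fun q hq => h2 hq⟩
  choose! y h1 h2 using this
  obtain ⟨t, ht, hf, hc⟩ := h.elim_finite_subcover_image (b := U) (c := fun p => N (y p))
    (fun p _ => N_open _) fun p hp => mem_biUnion hp (h1 p hp)
  refine ⟨⋃ p ∈ t, y p, Subset.antisymm (fun p hp => ?_) fun p hp => ?_⟩
  · obtain ⟨q, hq, h3⟩ := mem_iUnion₂.1 (hc hp)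
    exact (Ultrafilter.finite_biUnion_mem_iff hf).2 ⟨q, hq, h3⟩
  · obtain ⟨q, hq, h3⟩ := (Ultrafilter.finite_biUnion_mem_iff hf).1 hp
    exact h2 q (ht hq) h3

theorem reg_inter {X : Type} [TopologicalSpace X] {A B : Set X} (hA : IsOpen A) :
    interior (closure A) ∩ interior (closure B) ⊆ closure (A ∩ B) := by
  intro p hp
  have h1 : p ∈ closure (interior (closure B) ∩ A) :=
    isOpen_interior.inter_closure ⟨hp.2, interior_subset hp.1⟩
  rw [← closure_closure]
  exact closure_mono (fun q hq => hA.inter_closure ⟨hq.2, interior_subset hq.1⟩) h1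

def R {ι : Type} (y : ι → Set ℕ) : Set Nstar := interior (closure (⋃ i, N (y i)))

theorem sub_R {ι : Type} (y : ι → Set ℕ) (i : ι) : N (y i) ⊆ R y :=
  interior_maximal ((subset_iUnion (fun i => N (y i)) i).trans subset_closure) (N_open _)

theorem R_inter {ι : Type} {y y' : ι → Set ℕ} {z : Set ℕ}
    (h : ∀ i j, ((y i ∩ y' j) \ z).Finite) : R y ∩ R y' ⊆ N z := by
  refine (reg_inter (isOpen_iUnion fun _ => N_open _)).trans
    (closure_minimal ?_ (N_closed z))
  rintro p ⟨h1, h2⟩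
  obtain ⟨i, hi⟩ := mem_iUnion.1 h1
  obtain ⟨j, hj⟩ := mem_iUnion.1 h2
  by_contra hz
  exact not_fin (h i j) p (inter_mem (inter_mem hi hj) (Ultrafilter.compl_mem_iff_notMem.2 hz))

theorem R_noncompact {a : ℕ → Set ℕ} (h1 : ∀ k, (a k).Infinite)
    (h2 : ∀ k l x, x ∈ a k → x ∈ a l → k = l) : ¬ IsCompact (R a) := by
  intro h
  obtain ⟨y, hy⟩ := compact_open h isOpen_interior
  have : ∀ k, ∃ x, x ∈ a k ∩ y := fun k => by
    obtain ⟨p, hp⟩ := exists_mem (h1 k)
    have hp' : p ∈ N y := hy ▸ sub_R a k hp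
    exact p.1.nonempty_of_mem (inter_mem hp hp')
  choose x hx using this
  have hi : Function.Injective x := fun k l e => h2 k l _ (hx k).1 (e ▸ (hx l).1)
  obtain ⟨p, hp⟩ := exists_mem (infinite_range_of_injective hi)
  have hp' : p ∈ R a := hy ▸ mem_of_superset hp (by rintro _ ⟨k, rfl⟩; exact (hx k).2)
  obtain ⟨q, hq1, hq2⟩ := mem_closure_iff.1 (interior_subset hp') _ (N_open _) hp
  obtain ⟨k, hk⟩ := mem_iUnion.1 hq2
  refine not_fin ((finite_singleton (x k)).subset ?_) q (inter_mem hq1 hk)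
  rintro _ ⟨⟨l, rfl⟩, hl⟩
  rw [h2 l k _ (hx l).1 hl]; rfl

theorem fam {ι : Type} (U : ι → Set Nstar) (h1 : ∀ i, U i = interior (closure (U i)))
    (h2 : ∀ i, ¬ IsCompact (U i)) (h3 : ∀ i j, i ≠ j → IsCompact (U i ∩ U j)) :
    ∃ A : Set (Set Nstar), ADFamily A ∧ #A = #ι := by
  refine ⟨range U, ⟨?_, ?_⟩, mk_range_eq U fun i j e => by_contra fun h => h2 i ?_⟩
  · rintro _ ⟨i, rfl⟩; exact ⟨h1 i, h2 i⟩
  · rintro _ ⟨i, rfl⟩ _ ⟨j, rfl⟩ h; exact h3 i j fun e => h (e ▸ rfl)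
  · simpa [← e] using h3 i j h

theorem small : ∃ A : Set (Set Nstar), ADFamily A ∧ #A = 𝔠 := by
  obtain ⟨φ⟩ : Nonempty (ℕ ≃ ℕ × List Bool) := nonempty_equiv_of_countable
  let a : (ℕ → Bool) → ℕ → Set ℕ := fun r k =>
    φ ⁻¹' {p | p.1 = k ∧ ∃ n, k ≤ n ∧ p.2 = (List.range n).map r}
  refine (fam (fun r => R (a r)) (fun r => interior_closure_idem.symm)
    (fun r => R_noncompact (fun k => ?_) fun k l x h h' => h.1.symm.trans h'.1)
    fun r r' hne => ?_).imp fun A h => ⟨h.1, by simpa using h.2⟩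
  · refine Infinite.preimage ?_ (by simp)
    refine infinite_of_injective_forall_mem (f := fun n : ℕ => (k, (List.range (k + n)).map r))
      (fun m n h => ?_) fun n => ⟨rfl, k + n, by omega, rfl⟩
    simpa using congrArg (fun p : ℕ × List Bool => p.2.length) h
  · obtain ⟨d, hd⟩ := Function.ne_iff.1 hne
    have : R (a r) ∩ R (a r') ⊆ N ∅ := by
      refine R_inter fun k l => ?_
      refine (Finite.preimage φ.injective.injOn (((finite_le_nat d).prod (finite_le_nat d)).image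
        fun q : ℕ × ℕ => (q.1, (List.range q.2).map r))).subset ?_
      rintro x ⟨⟨⟨h1, n, h2, h3⟩, -, m, -, h4⟩, -⟩
      obtain rfl : n = m := by simpa using congrArg List.length (h3.symm.trans h4)
      have hn : n ≤ d := not_lt.1 fun h =>
        hd (List.map_inj_left.1 (h3.symm.trans h4) d (List.mem_range.2 h))
      exact ⟨(k, n), ⟨h2.trans hn, hn⟩, Prod.ext h1.symm h3.symm⟩
    have e : R (a r) ∩ R (a r') = ∅ := eq_empty_of_forall_notMem fun p hp =>
      not_fin finite_empty p (this hp)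
    rw [e]; exact isCompact_empty

theorem result : ∃ A : Set (Set Nstar), ADFamily A ∧ #A = 2 ^ aleph 1 := by
  rcases le_or_gt (2 ^ aleph 1 : Cardinal.{0}) 𝔠 with h | h
  · obtain ⟨A, hA, hc⟩ := small
    refine ⟨A, hA, hc.trans (le_antisymm ?_ h)⟩
    exact power_le_power_left two_ne_zero aleph0_lt_aleph_one.le
  obtain ⟨φ⟩ : Nonempty (ℕ ≃ ℕ × List Bool) := nonempty_equiv_of_countable
  obtain ⟨y, hy⟩ := exists_tree
  let U : (W → Bool) → Set Nstar := fun b => R fun α => φ ⁻¹' y b α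
  have hU : ∀ b b', b ≠ b' → ∃ z, U b ∩ U b' = N z ∧ U b ≠ N z := by
    intro b b' hne
    obtain ⟨δ, h1, h2, α, h3⟩ := hy b b' hne
    refine ⟨φ ⁻¹' y b δ, Subset.antisymm (R_inter fun α α' =>
      (h2 α α').preimage (f := φ) φ.injective.injOn) (subset_inter (sub_R (fun α => φ ⁻¹' y b α) δ)
      (h1 ▸ sub_R (fun α => φ ⁻¹' y b' α) δ)), fun e => ?_⟩
    obtain ⟨p, hp⟩ := exists_mem (h3.preimage (f := φ) (by simp))
    have hp' : p ∈ N (φ ⁻¹' y b δ) := e ▸ sub_R (fun α => φ ⁻¹' y b α) α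
      (mem_of_superset hp fun x hx => hx.1)
    exact not_fin finite_empty p (mem_of_superset (inter_mem hp hp') fun x hx => hx.1.2 hx.2)
  have hinj : Function.Injective U := fun b b' e => by_contra fun hne => by
    obtain ⟨z, h1, h2⟩ := hU b b' hne
    exact h2 (by rwa [← e, inter_self] at h1)
  have hbad : #{b | IsCompact (U b)} ≤ 𝔠 := by
    rw [← mk_image_eq hinj]
    refine (mk_le_mk_of_subset (t := range N) ?_).trans (mk_range_le.trans (by simp))
    rintro _ ⟨b, hb, rfl⟩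
    obtain ⟨z, hz⟩ := compact_open hb isOpen_interior
    exact ⟨z, hz.symm⟩
  have hall : #(W → Bool) = 2 ^ aleph 1 := by simp
  obtain ⟨A, hA, hc⟩ := fam (fun b : ({b | IsCompact (U b)}ᶜ : Set _) => U b)
    (fun b => interior_closure_idem.symm) (fun b => b.2) fun b b' hne => by
      obtain ⟨z, h1, -⟩ := hU b b' fun e => hne (Subtype.ext e)
      exact h1 ▸ (N_closed z).isCompact
  refine ⟨A, hA, hc.trans ?_⟩
  have : Infinite (W → Bool) := by
    rw [infinite_iff, hall]; exact aleph0_le_continuum.trans h.le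
  rw [← hall]
  exact mk_compl_of_infinite _ (hbad.trans_lt (hall ▸ h))

end Pool.Agent.Results.MP_bcfe2b_lc.TwoAlephOne
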